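import Pool.Agent.U691.KM.Ev

/-!
# The equations determine the total dimensions in degrees at most `18`
-/

set_option autoImplicit false

namespace Pool.Agent.U691.KM

open MvPowerSeries

variable {d : ℕ} {K : Type} [CommRing K] {τ : K} (hτ : τ ^ 19 = 0)

theorem ev_lam (X : RK d) : ev d hτ (lam X) = ev d hτ (lamProd X 18) := by
  rw [ev_apply, ev_apply]
  refine Finset.sum_congr rfl fun w hw => ?_
  rw [mem_low] at hw
  congr 2
  rw [coeff_lamProd X w 18 (by omega)]
  rfl

theorem ev_fac {v : Fin d →₀ ℕ} (hv : 1 ≤ v.degree) (i n : ℤ) :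
    ev d hτ (ipow (1 - monomial v (ex i)) n) = ipow (1 - tt τ ^ v.degree * eK K i) n := by
  rw [ipow_map _ (isUnit_fac hv _), map_sub, map_one, ev_monomial, bc_ex]

theorem coeff_cls (a b : R d) (v : Fin d →₀ ℕ) (i : ℤ) :
    (coeff v (cls a b)).coeff i =
      if i = 0 then coeff v a + coeff v b else if i = 1 ∨ i = -1 then coeff v a else 0 := by
  have h1 : coeff v (cls a b) = coeff v a • adjChar + coeff v b • (1 : Lau) := rfl
  rw [h1]
  unfold adjChar ex
  rw [AddMonoidAlgebra.coeff_add, AddMonoidAlgebra.coeff_smul, AddMonoidAlgebra.coeff_smul,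
    AddMonoidAlgebra.coeff_add, AddMonoidAlgebra.coeff_add, AddMonoidAlgebra.one_def]
  simp only [Finsupp.add_apply, Finsupp.smul_apply, AddMonoidAlgebra.coeff_single,
    Finsupp.single_apply, smul_eq_mul]
  by_cases h0 : i = 0
  · subst h0
    simp
  · by_cases h1 : i = 1
    · subst h1
      simp
    · by_cases h2 : i = -1
      · subst h2
        simp
      · rw [if_neg h0, if_neg (by tauto), if_neg (by tauto), if_neg (by tauto), if_neg (by tauto)]
        simp

/-- the factor of `v` -/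
theorem inner_prod (a b : R d) {v : Fin d →₀ ℕ} (hv : 1 ≤ v.degree) :
    ev d hτ (∏ i ∈ (coeff v (cls a b)).coeff.support,
      ipow (1 - monomial v (ex i)) ((coeff v (cls a b)).coeff i)) =
    ipow (1 - tt τ ^ v.degree * eK K 0) (coeff v a + coeff v b) *
      (ipow (1 - tt τ ^ v.degree * eK K 1) (coeff v a) *
        ipow (1 - tt τ ^ v.degree * eK K (-1)) (coeff v a)) := by
  rw [map_prod]
  have h1 : ∏ i ∈ (coeff v (cls a b)).coeff.support,
      ev d hτ (ipow (1 - monomial v (ex i)) ((coeff v (cls a b)).coeff i)) =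
      ∏ i ∈ ({0, 1, -1} : Finset ℤ),
        ipow (1 - tt τ ^ v.degree * eK K i) ((coeff v (cls a b)).coeff i) := by
    simp only [ev_fac hτ hv]
    apply Finset.prod_subset
    · intro i hi
      rw [Finsupp.mem_support_iff, coeff_cls] at hi
      simp only [Finset.mem_insert, Finset.mem_singleton]
      by_contra hcon
      push Not at hcon
      rw [if_neg hcon.1, if_neg (by tauto)] at hi
      exact hi rfl
    · intro i _ hi
      rw [Finsupp.notMem_support_iff] at hi
      rw [hi, ipow_zero]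
  rw [h1, Finset.prod_insert (by decide), Finset.prod_insert (by decide), Finset.prod_singleton,
    coeff_cls, coeff_cls, coeff_cls]
  simp

include hτ in
theorem isUnit_one_sub_tt {m : ℕ} (hm : 1 ≤ m) (x : AddMonoidAlgebra K ℤ) :
    IsUnit (1 - tt τ ^ m * x) := by
  apply IsNilpotent.isUnit_one_sub
  refine ⟨19, ?_⟩
  rw [mul_pow, ← pow_mul, mul_comm m 19, pow_mul, tt_pow hτ, zero_pow (by omega), zero_mul]

include hτ in
/-- a scalar factor -/
theorem scalar_fac {m : ℕ} (hm : 1 ≤ m) (n : ℤ) :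
    ∃ β : K, ipow (1 - tt τ ^ m * eK K 0) n = algebraMap K (AddMonoidAlgebra K ℤ) β := by
  have hu : IsUnit (1 - τ ^ m : K) := by
    apply IsNilpotent.isUnit_one_sub
    refine ⟨19, ?_⟩
    rw [← pow_mul, mul_comm, pow_mul, hτ, zero_pow (by omega)]
  refine ⟨ipow (1 - τ ^ m) n, ?_⟩
  rw [ipow_map _ hu, map_sub, map_one, map_pow, eK_zero, mul_one]

theorem scalar_prod {ι : Type} (s : Finset ι) (f : ι → AddMonoidAlgebra K ℤ)
    (h : ∀ i ∈ s, ∃ β : K, f i = algebraMap K (AddMonoidAlgebra K ℤ) β) :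
    ∃ β : K, ∏ i ∈ s, f i = algebraMap K (AddMonoidAlgebra K ℤ) β := by
  classical
  choose! g hg using h
  refine ⟨∏ i ∈ s, g i, ?_⟩
  rw [map_prod]
  exact Finset.prod_congr rfl hg

/-- the product over the roots -/
noncomputable def PsiA (τ : K) (A : ℕ → ℤ) : AddMonoidAlgebra K ℤ :=
  ∏ m ∈ Finset.Icc 1 18, (ipow (1 - tt τ ^ m * eK K 1) (A m) *
    ipow (1 - tt τ ^ m * eK K (-1)) (A m))

/-- total dimension in degree `m` -/
noncomputable def tot (a : R d) (m : ℕ) : ℤ :=
  ∑ v ∈ (Finset.univ : Finset (Fin d)).finsuppAntidiag m, coeff v a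

/-- evaluation of `Φ` -/
theorem ev_Phi (a b : R d) : ∃ β : K, ev d hτ (lam (cls a b)) = β • PsiA τ (tot a) := by
  rw [ev_lam]
  unfold lamProd
  rw [map_prod]
  have h1 : ∀ v ∈ expos d 18, ev d hτ (∏ i ∈ (coeff v (cls a b)).coeff.support,
      ipow (1 - monomial v (ex i)) ((coeff v (cls a b)).coeff i)) =
      ipow (1 - tt τ ^ v.degree * eK K 0) (coeff v a + coeff v b) *
      (ipow (1 - tt τ ^ v.degree * eK K 1) (coeff v a) *
        ipow (1 - tt τ ^ v.degree * eK K (-1)) (coeff v a)) := by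
    intro v hv
    rw [mem_expos] at hv
    exact inner_prod hτ a b hv.1
  rw [Finset.prod_congr rfl h1, Finset.prod_mul_distrib]
  obtain ⟨β, hβ⟩ := scalar_prod (expos d 18)
    (fun v => ipow (1 - tt τ ^ v.degree * eK K 0) (coeff v a + coeff v b)) (by
      intro v hv
      rw [mem_expos] at hv
      exact scalar_fac hτ hv.1 _)
  refine ⟨β, ?_⟩
  rw [hβ, Algebra.smul_def]
  congr 1
  unfold PsiA expos tot
  rw [Finset.prod_biUnion]
  · refine Finset.prod_congr rfl fun m hm => ?_
    rw [Finset.mem_Icc] at hm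
    have h3 : ∀ v ∈ (Finset.univ : Finset (Fin d)).finsuppAntidiag m,
        ipow (1 - tt τ ^ v.degree * eK K 1) (coeff v a) *
        ipow (1 - tt τ ^ v.degree * eK K (-1)) (coeff v a) =
        ipow (1 - tt τ ^ m * eK K 1) (coeff v a) *
        ipow (1 - tt τ ^ m * eK K (-1)) (coeff v a) := by
      intro v hv
      rw [mem_fsa] at hv
      rw [hv]
    rw [Finset.prod_congr rfl h3, Finset.prod_mul_distrib,
      ipow_sum (isUnit_one_sub_tt hτ hm.1 _), ipow_sum (isUnit_one_sub_tt hτ hm.1 _)]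
  · intro m _ n _ hmn
    simp only [Function.onFun]
    rw [Finset.disjoint_left]
    intro v hv hv2
    rw [mem_fsa] at hv hv2
    exact hmn (hv.symm.trans hv2)

/-- coefficients of the evaluation -/
theorem coeff_ev (i : ℤ) (x : RK d) :
    (ev d hτ x).coeff i = ∑ w ∈ low d, τ ^ w.degree * (((coeff w x).coeff i : ℤ) : K) := by
  rw [ev_apply, AddMonoidAlgebra.coeff_sum, Finsupp.coe_finsetSum, Finset.sum_apply]
  refine Finset.sum_congr rfl fun w _ => ?_
  rw [← map_pow, ← Algebra.smul_def, AddMonoidAlgebra.coeff_smul_apply, smul_eq_mul, bc_coeff]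

theorem mult_ev (i : ℤ) (x : RK d) :
    (ev d hτ x).coeff i - (ev d hτ x).coeff (i + 1) =
      ∑ w ∈ low d, τ ^ w.degree * ((coeff w (coefL i x) : ℤ) : K) := by
  rw [coeff_ev, coeff_ev, ← Finset.sum_sub_distrib]
  refine Finset.sum_congr rfl fun w _ => ?_
  have h1 : coeff w (coefL i x) = mult i (coeff w x) := rfl
  rw [h1]
  unfold mult
  push_cast
  ring

include hτ in
theorem EK_pair {a b : R 3} (h : IsPair a b) : EK τ (PsiA τ (tot a)) = 0 := by
  classical
  obtain ⟨_, _, h0, h1⟩ := h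
  obtain ⟨β, hβ⟩ := ev_Phi hτ a b
  have e0 : (ev 3 hτ (lam (cls a b))).coeff 0 - (ev 3 hτ (lam (cls a b))).coeff (0 + 1) = 1 := by
    rw [mult_ev, h0, Finset.sum_eq_single_of_mem 0]
    · simp
    · rw [mem_low]; simp
    · intro w _ hw
      rw [coeff_one, if_neg hw]
      simp
  have e1 : (ev 3 hτ (lam (cls a b))).coeff 1 - (ev 3 hτ (lam (cls a b))).coeff (1 + 1) =
      -(3 * τ) := by
    rw [mult_ev, h1]
    have h2 : ∀ i : Fin 3, ∑ w ∈ low 3, τ ^ w.degree * ((coeff w (X i : R 3) : ℤ) : K) = τ := by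
      intro i
      rw [Finset.sum_eq_single_of_mem (Finsupp.single i 1)]
      · rw [coeff_index_single_self_X]
        simp
      · rw [mem_low]; simp
      · intro w _ hw
        rw [coeff_X, if_neg hw]
        simp
    simp only [map_neg, Fin.sum_univ_three, map_add, Int.cast_neg, Int.cast_add, mul_neg,
      mul_add, Finset.sum_neg_distrib, Finset.sum_add_distrib, h2]
    ring
  rw [hβ] at e0 e1
  simp only [AddMonoidAlgebra.coeff_smul_apply, smul_eq_mul, zero_add] at e0 e1
  norm_num at e0 e1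
  unfold EK
  set p0 := (PsiA τ (tot a)).coeff 0
  set p1 := (PsiA τ (tot a)).coeff 1
  set p2 := (PsiA τ (tot a)).coeff 2
  linear_combination (p0 - p1) * e1 - (p1 - p2) * e0

theorem isUnit_mul_pair {m : ℕ} (hm : 1 ≤ m) (n n' : ℤ) (hτ : τ ^ 19 = 0) :
    ipow (1 - tt τ ^ m * eK K 1) (n + n') * ipow (1 - tt τ ^ m * eK K (-1)) (n + n') =
    (ipow (1 - tt τ ^ m * eK K 1) n * ipow (1 - tt τ ^ m * eK K (-1)) n) *
    (ipow (1 - tt τ ^ m * eK K 1) n' * ipow (1 - tt τ ^ m * eK K (-1)) n') := by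
  rw [ipow_add (isUnit_one_sub_tt hτ hm _), ipow_add (isUnit_one_sub_tt hτ hm _)]
  ring

include hτ in
/-- the first difference of two solutions -/
theorem first_diff {A B : ℕ → ℤ} (hA : EK τ (PsiA τ A) = 0) (hB : EK τ (PsiA τ B) = 0)
    (hK : ∀ δ : ℤ, (δ : K) * τ ^ 18 = 0 → δ = 0) :
    ∀ n, 1 ≤ n → n ≤ 18 → A n = B n := by
  intro n
  induction n using Nat.strong_induction_on with
  | _ n ih =>
  intro hn1 hn
  -- the quotient of the two products
  set δ : ℕ → ℤ := fun m => A m - B m with hδ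
  have hAB : PsiA τ A = PsiA τ B * PsiA τ δ := by
    unfold PsiA
    rw [← Finset.prod_mul_distrib]
    refine Finset.prod_congr rfl fun m hm => ?_
    rw [Finset.mem_Icc] at hm
    have : A m = B m + δ m := by simp [hδ]
    rw [this, isUnit_mul_pair hm.1 _ _ hτ]
  set J : Ideal (AddMonoidAlgebra K ℤ) := Ideal.span {tt τ ^ (n + 1)} with hJ
  have hz : ∀ m, n + 1 ≤ m → ∀ x, Ideal.Quotient.mk J (tt τ ^ m * x) = 0 := by
    intro m hm x
    rw [Ideal.Quotient.eq_zero_iff_mem, hJ, Ideal.mem_span_singleton]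
    exact Dvd.dvd.mul_right (pow_dvd_pow _ hm) _
  -- reduction of the quotient
  have h1 : Ideal.Quotient.mk J (PsiA τ δ) =
      1 - Ideal.Quotient.mk J (tt τ ^ n * (algebraMap K _ (δ n : K) * (eK K 1 + eK K (-1)))) := by
    unfold PsiA
    rw [map_prod, Finset.prod_eq_single_of_mem n (by rw [Finset.mem_Icc]; omega)]
    · have hsq : ∀ x y : AddMonoidAlgebra K ℤ, Ideal.Quotient.mk J (tt τ ^ n * x) *
          Ideal.Quotient.mk J (tt τ ^ n * y) = 0 := by
        intro x y
        rw [← map_mul]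
        have : tt τ ^ n * x * (tt τ ^ n * y) = tt τ ^ (n + n) * (x * y) := by
          rw [pow_add]; ring
        rw [this]
        exact hz _ (by omega) _
      rw [map_mul, ipow_map _ (isUnit_one_sub_tt hτ hn1 _),
        ipow_map _ (isUnit_one_sub_tt hτ hn1 _), map_sub, map_one, map_sub, map_one,
        ipow_one_sub (hsq _ _), ipow_one_sub (hsq _ _)]
      have e1 : (δ n : (AddMonoidAlgebra K ℤ) ⧸ J) =
          Ideal.Quotient.mk J (algebraMap K _ (δ n : K)) := by
        rw [map_intCast, map_intCast]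
      have e2 := hsq (eK K 1) (eK K (-1))
      have e3 : Ideal.Quotient.mk J (tt τ ^ n * (algebraMap K _ (δ n : K) *
          (eK K 1 + eK K (-1)))) = (δ n : (AddMonoidAlgebra K ℤ) ⧸ J) *
          Ideal.Quotient.mk J (tt τ ^ n * eK K 1) + (δ n : (AddMonoidAlgebra K ℤ) ⧸ J) *
          Ideal.Quotient.mk J (tt τ ^ n * eK K (-1)) := by
        rw [e1, ← map_mul, ← map_mul, ← map_add]
        congr 1
        ring
      rw [e3]
      linear_combination (δ n : (AddMonoidAlgebra K ℤ) ⧸ J) ^ 2 * e2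
    · intro m hm hmn
      rw [Finset.mem_Icc] at hm
      rcases Nat.lt_or_ge m n with hlt | hge
      · have : δ m = 0 := by
          rw [hδ]
          simp only
          rw [ih m hlt hm.1 hm.2, sub_self]
        rw [this, ipow_zero, ipow_zero, mul_one, map_one]
      · have hm2 : n + 1 ≤ m := by omega
        rw [map_mul, ipow_map _ (isUnit_one_sub_tt hτ hm.1 _),
          ipow_map _ (isUnit_one_sub_tt hτ hm.1 _), map_sub, map_sub, hz m hm2, hz m hm2,
          sub_zero, map_one, ipow_one, mul_one]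
  -- `PsiA B` is one modulo `t`
  have h2 : Ideal.Quotient.mk (Ideal.span {tt τ}) (PsiA τ B) = 1 := by
    unfold PsiA
    rw [map_prod]
    refine Finset.prod_eq_one fun m hm => ?_
    rw [Finset.mem_Icc] at hm
    have hz2 : ∀ x, Ideal.Quotient.mk (Ideal.span {tt τ}) (tt τ ^ m * x) = 0 := by
      intro x
      rw [Ideal.Quotient.eq_zero_iff_mem, Ideal.mem_span_singleton]
      exact Dvd.dvd.mul_right (dvd_pow_self _ (by omega)) _
    rw [map_mul, ipow_map _ (isUnit_one_sub_tt hτ hm.1 _),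
      ipow_map _ (isUnit_one_sub_tt hτ hm.1 _), map_sub, map_sub, hz2, hz2,
      sub_zero, map_one, ipow_one, mul_one]
  have h3 : ∃ y, PsiA τ B = 1 + tt τ * y := by
    have : Ideal.Quotient.mk (Ideal.span {tt τ}) (PsiA τ B - 1) = 0 := by
      rw [map_sub, h2, map_one, sub_self]
    rw [Ideal.Quotient.eq_zero_iff_mem, Ideal.mem_span_singleton] at this
    obtain ⟨y, hy⟩ := this
    exact ⟨y, by linear_combination hy⟩
  obtain ⟨y, hy⟩ := h3
  have h4 : ∃ z, PsiA τ δ = 1 - tt τ ^ n * (algebraMap K _ (δ n : K) * (eK K 1 + eK K (-1))) +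
      tt τ ^ (n + 1) * z := by
    have : Ideal.Quotient.mk J (PsiA τ δ - (1 - tt τ ^ n * (algebraMap K _ (δ n : K) *
        (eK K 1 + eK K (-1))))) = 0 := by
      rw [map_sub, h1, map_sub, map_one, sub_self]
    rw [Ideal.Quotient.eq_zero_iff_mem, hJ, Ideal.mem_span_singleton] at this
    obtain ⟨z, hz⟩ := this
    exact ⟨z, by linear_combination hz⟩
  obtain ⟨z, hz'⟩ := h4
  -- the difference
  set D : K := (δ n : K) with hD
  have h5 : PsiA τ A = PsiA τ B + ((-(τ ^ n * D)) • (eK K 1 + eK K (-1)) +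
      τ ^ (n + 1) • (z * PsiA τ B - y * (algebraMap K _ D * (eK K 1 + eK K (-1))))) := by
    rw [hAB, hz', Algebra.smul_def, Algebra.smul_def, map_neg, map_mul, map_pow, map_pow]
    have : PsiA τ B * (1 - tt τ ^ n * (algebraMap K _ D * (eK K 1 + eK K (-1))) +
        tt τ ^ (n + 1) * z) = PsiA τ B - tt τ ^ n * (algebraMap K _ D *
        (eK K 1 + eK K (-1))) * (1 + tt τ * y) + tt τ ^ (n + 1) * (z * PsiA τ B) := by
      rw [← hy]; ring
    rw [this]
    ring
  have h6 := hA
  rw [h5, EK_add, EK_add, EK_smul, EK_smul, hB, zero_add] at h6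
  have h7 : EK τ (eK K 1 + eK K (-1)) = 1 - 3 * τ := by
    unfold EK
    simp only [AddMonoidAlgebra.coeff_add, Finsupp.add_apply, coeff_eK]
    norm_num
    ring
  rw [h7] at h6
  have h8 : D * τ ^ 18 = 0 := by
    have h9 : τ ^ (18 - n) * τ ^ n = τ ^ 18 := by rw [← pow_add]; congr 1; omega
    have h10 : τ ^ (18 - n) * τ ^ (n + 1) = 0 := by
      rw [← pow_add]
      have : 18 - n + (n + 1) = 19 := by omega
      rw [this, hτ]
    have h11 : τ ^ 18 * τ = 0 := by rw [← pow_succ, hτ]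
    set w := EK τ (z * PsiA τ B - y * (algebraMap K _ D * (eK K 1 + eK K (-1))))
    linear_combination (-τ ^ (18 - n)) * h6 + w * h10 - D * (1 - 3 * τ) * h9 + 3 * D * h11
  have h12 := hK _ h8
  have h13 : A n - B n = 0 := h12
  omega

end Pool.Agent.U691.KM
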