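import Pool.Agent.U691.KM.Exi
import Pool.Agent.H67.PI.Jor

/-!
# A lower bound for the dimensions of the free Jordan algebra on three generators

The free Jordan algebra maps onto the symmetric elements of the free associative algebra
(Cohn's theorem, `Pool.Agent.H67.PI.cohn3`).
-/

set_option autoImplicit false

namespace Pool.Agent.U691.KM

open MvPowerSeries Pool.Agent.H67.PI

variable {F : Type} [Field F]

/-- the free associative algebra with unit -/
abbrev FA (F : Type) [Field F] : Type := MonoidAlgebra F (FreeMonoid (Fin 3))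

/-- the values of the monomials in the free associative algebra with the Jordan product -/
noncomputable def jm (F : Type) [Field F] : FreeMagma (Fin 3) → FA F
  | FreeMagma.of i => MonoidAlgebra.single (FreeMonoid.of i) 1
  | FreeMagma.mul a b => (2 : F)⁻¹ • (jm F a * jm F b + jm F b * jm F a)

/-- the linear extension -/
noncomputable def Jm (F : Type) [Field F] : MonoidAlgebra F (FreeMagma (Fin 3)) →ₗ[F] FA F :=
  (MonoidAlgebra.basis (FreeMagma (Fin 3)) F).constr F (jm F)

theorem Jm_single (m : FreeMagma (Fin 3)) : Jm F (MonoidAlgebra.single m 1) = jm F m := by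
  unfold Jm
  rw [← MonoidAlgebra.basis_apply, Module.Basis.constr_basis]

theorem Jm_mul (u v : MonoidAlgebra F (FreeMagma (Fin 3))) :
    Jm F (u * v) = (2 : F)⁻¹ • (Jm F u * Jm F v + Jm F v * Jm F u) := by
  induction u using MonoidAlgebra.induction_linear with
  | zero => simp
  | add a b ha hb =>
    rw [add_mul, map_add, ha, hb, map_add, ← smul_add]
    congr 1
    noncomm_ring
  | single m c =>
    induction v using MonoidAlgebra.induction_linear with
    | zero => simp
    | add a b ha hb =>
      rw [mul_add, map_add, ha, hb, map_add, ← smul_add]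
      congr 1
      noncomm_ring
    | single m' c' =>
      have h1 : ∀ (m : FreeMagma (Fin 3)) (c : F),
          (MonoidAlgebra.single m c : MonoidAlgebra F (FreeMagma (Fin 3))) =
          c • MonoidAlgebra.single m 1 := by
        intro m c; simp
      rw [h1 m c, h1 m' c', smul_mul_smul_comm, MonoidAlgebra.single_mul_single, one_mul,
        map_smul, map_smul, map_smul, Jm_single, Jm_single, Jm_single]
      show (c * c') • ((2 : F)⁻¹ • (jm F m * jm F m' + jm F m' * jm F m)) = _
      rw [smul_mul_smul_comm, smul_mul_smul_comm, mul_comm c' c, ← smul_add, smul_comm]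

theorem jordKer_le : jordKer F 3 ≤ LinearMap.ker (Jm F) := by
  unfold jordKer
  refine sInf_le ⟨?_, ?_⟩
  · intro u v
    rw [LinearMap.mem_ker, LinearMap.mem_ker]
    constructor
    · rw [map_sub, Jm_mul, Jm_mul, add_comm, sub_self]
    · rw [map_sub, sub_eq_zero]
      simp only [Jm_mul]
      simp only [smul_mul_assoc, mul_smul_comm, smul_add, smul_smul, mul_add, add_mul, mul_assoc]
      abel
  · intro a x hx
    rw [LinearMap.mem_ker] at hx
    rw [LinearMap.mem_ker, LinearMap.mem_ker, Jm_mul, Jm_mul, hx]
    simp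

/-- the map from the free Jordan algebra -/
noncomputable def phiJ (F : Type) [Field F] : FreeJord F 3 →ₗ[F] FA F :=
  (jordKer F 3).liftQ (Jm F) jordKer_le

theorem phiJ_mk (u : MonoidAlgebra F (FreeMagma (Fin 3))) :
    phiJ F ((jordKer F 3).mkQ u) = Jm F u := rfl

/-- the span of the Jordan monomials of degree `n` -/
noncomputable def En (F : Type) [Field F] (n : ℕ) : Submodule F (FA F) :=
  Submodule.span F {y | ∃ m : FreeMagma (Fin 3), (mdeg m).degree = n ∧ y = jm F m}

/-- monomials of given degree form a finite set -/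
theorem finite_mono (n : ℕ) : {m : FreeMagma (Fin 3) | (mdeg m).degree = n}.Finite := by
  induction n using Nat.strong_induction_on with
  | _ n ih =>
    have hpos : ∀ m : FreeMagma (Fin 3), 1 ≤ (mdeg m).degree := by
      intro m
      induction m with
      | ih1 i =>
        show 1 ≤ (Finsupp.single i 1 : Fin 3 →₀ ℕ).degree
        simp
      | ih2 a b ha hb =>
        show 1 ≤ (mdeg a + mdeg b).degree
        rw [map_add]
        omega
    have hsub : {m : FreeMagma (Fin 3) | (mdeg m).degree = n} ⊆
        Set.range (FreeMagma.of : Fin 3 → FreeMagma (Fin 3)) ∪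
        ⋃ i ∈ Set.Iio n, ⋃ j ∈ Set.Iio n, Set.image2 (· * ·)
          {m : FreeMagma (Fin 3) | (mdeg m).degree = i}
          {m : FreeMagma (Fin 3) | (mdeg m).degree = j} := by
      intro m hm
      cases m with
      | of i => exact Or.inl ⟨i, rfl⟩
      | mul a b =>
        right
        have h1 : (mdeg a).degree + (mdeg b).degree = n := by
          rw [← map_add]; exact hm
        have h2 := hpos a
        have h3 := hpos b
        simp only [Set.mem_iUnion]
        exact ⟨(mdeg a).degree, by show _ < n; omega, (mdeg b).degree, by show _ < n; omega,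
          a, rfl, b, rfl, rfl⟩
    refine Set.Finite.subset ?_ hsub
    refine (Set.finite_range _).union ?_
    refine Set.Finite.biUnion (Set.finite_Iio n) fun i hi => ?_
    refine Set.Finite.biUnion (Set.finite_Iio n) fun j hj => ?_
    exact Set.Finite.image2 _ (ih i hi) (ih j hj)

instance finiteDim_jordWt (w : Fin 3 →₀ ℕ) : FiniteDimensional F (jordWt F 3 w) := by
  unfold jordWt
  apply FiniteDimensional.span_of_finite
  have h : ({y | ∃ m : FreeMagma (Fin 3), mdeg m = w ∧
      y = (jordKer F 3).mkQ (MonoidAlgebra.single m 1)} : Set (FreeJord F 3)) ⊆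
      (fun m : FreeMagma (Fin 3) => (jordKer F 3).mkQ (MonoidAlgebra.single m 1)) ''
      {m : FreeMagma (Fin 3) | (mdeg m).degree = w.degree} := by
    rintro _ ⟨m, hm, rfl⟩
    exact ⟨m, by show (mdeg m).degree = _; rw [hm], rfl⟩
  exact ((finite_mono _).image _).subset h

theorem En_le (n : ℕ) : En F n ≤ ⨆ w ∈ (Finset.univ : Finset (Fin 3)).finsuppAntidiag n,
    (jordWt F 3 w).map (phiJ F) := by
  unfold En
  rw [Submodule.span_le]
  rintro _ ⟨m, hm, rfl⟩
  have h1 : mdeg m ∈ (Finset.univ : Finset (Fin 3)).finsuppAntidiag n := by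
    rw [mem_fsa]; exact hm
  refine Submodule.mem_iSup_of_mem (mdeg m) (Submodule.mem_iSup_of_mem h1 ?_)
  refine ⟨(jordKer F 3).mkQ (MonoidAlgebra.single m 1), Submodule.subset_span ⟨m, rfl, rfl⟩, ?_⟩
  rw [phiJ_mk, Jm_single]

theorem finrank_biSup_le {ι V : Type} [AddCommGroup V] [Module F V] (s : Finset ι)
    (f : ι → Submodule F V) [∀ i, FiniteDimensional F (f i)] :
    FiniteDimensional F (⨆ i ∈ s, f i : Submodule F V) ∧
    Module.finrank F (⨆ i ∈ s, f i : Submodule F V) ≤ ∑ i ∈ s, Module.finrank F (f i) := by
  classical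
  induction s using Finset.induction_on with
  | empty =>
    have h : (⨆ i ∈ (∅ : Finset ι), f i) = ⊥ := by simp
    rw [h]
    exact ⟨inferInstance, by simp⟩
  | insert a s ha ih =>
    rw [Finset.iSup_insert, Finset.sum_insert ha]
    have := ih.1
    refine ⟨inferInstance, ?_⟩
    exact (Submodule.finrank_add_le_finrank_add_finrank _ _).trans (Nat.add_le_add_left ih.2 _)

theorem finrank_En_le (n : ℕ) : (Module.finrank F (En F n) : ℤ) ≤ tot (chJord F 3) n := by
  have h1 := finrank_biSup_le (F := F) ((Finset.univ : Finset (Fin 3)).finsuppAntidiag n)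
    (fun w => (jordWt F 3 w).map (phiJ F))
  have := h1.1
  have h2 := Submodule.finrank_mono (En_le (F := F) n)
  have h3 : ∑ w ∈ (Finset.univ : Finset (Fin 3)).finsuppAntidiag n,
      Module.finrank F ((jordWt F 3 w).map (phiJ F)) ≤
      ∑ w ∈ (Finset.univ : Finset (Fin 3)).finsuppAntidiag n, Module.finrank F (jordWt F 3 w) :=
    Finset.sum_le_sum fun w _ => Submodule.finrank_map_le _ _
  have h4 := h2.trans (h1.2.trans h3)
  have h5 : tot (chJord F 3) n = ((∑ w ∈ (Finset.univ : Finset (Fin 3)).finsuppAntidiag n,
      Module.finrank F (jordWt F 3 w) : ℕ) : ℤ) := by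
    unfold tot
    rw [Nat.cast_sum]
    rfl
  rw [h5]
  exact_mod_cast h4

/-- homogeneous elements of degree `n` -/
noncomputable def Hn (F : Type) [Field F] (n : ℕ) : Submodule F (FA F) :=
  Submodule.span F {y | ∃ u : FreeMonoid (Fin 3), u.length = n ∧ y = MonoidAlgebra.single u 1}

theorem Hn_mul {i j : ℕ} {a b : FA F} (ha : a ∈ Hn F i) (hb : b ∈ Hn F j) :
    a * b ∈ Hn F (i + j) := by
  unfold Hn at *
  induction ha using Submodule.span_induction with
  | mem x hx =>
    obtain ⟨u, hu, rfl⟩ := hx
    induction hb using Submodule.span_induction with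
    | mem y hy =>
      obtain ⟨v, hv, rfl⟩ := hy
      rw [MonoidAlgebra.single_mul_single, one_mul]
      exact Submodule.subset_span ⟨u * v, by rw [FreeMonoid.length_mul, hu, hv], rfl⟩
    | zero => rw [mul_zero]; exact Submodule.zero_mem _
    | add x y _ _ hx hy => rw [mul_add]; exact Submodule.add_mem _ hx hy
    | smul c x _ hx => rw [mul_smul_comm]; exact Submodule.smul_mem _ _ hx
  | zero => rw [zero_mul]; exact Submodule.zero_mem _
  | add x y _ _ hx hy => rw [add_mul]; exact Submodule.add_mem _ hx hy
  | smul c x _ hx => rw [smul_mul_assoc]; exact Submodule.smul_mem _ _ hx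

theorem jm_mem_Hn (m : FreeMagma (Fin 3)) : jm F m ∈ Hn F (mdeg m).degree := by
  induction m with
  | ih1 i =>
    have h1 : (mdeg (FreeMagma.of i)).degree = 1 := by
      show (Finsupp.single i 1 : Fin 3 →₀ ℕ).degree = 1
      simp
    rw [h1]
    exact Submodule.subset_span ⟨FreeMonoid.of i, FreeMonoid.length_of i, rfl⟩
  | ih2 a b ha hb =>
    have h1 : (mdeg (a * b)).degree = (mdeg a).degree + (mdeg b).degree := by
      show (mdeg a + mdeg b).degree = _
      rw [map_add]
    rw [h1]
    show (2 : F)⁻¹ • (jm F a * jm F b + jm F b * jm F a) ∈ _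
    refine Submodule.smul_mem _ _ (Submodule.add_mem _ (Hn_mul ha hb) ?_)
    rw [add_comm]
    exact Hn_mul hb ha

/-- the projection onto degree `n` -/
noncomputable def pn (F : Type) [Field F] (n : ℕ) : FA F →ₗ[F] FA F :=
  (MonoidAlgebra.basis (FreeMonoid (Fin 3)) F).constr F
    fun u => if u.length = n then MonoidAlgebra.single u 1 else 0

theorem pn_single (n : ℕ) (u : FreeMonoid (Fin 3)) : pn F n (MonoidAlgebra.single u 1) =
    if u.length = n then MonoidAlgebra.single u 1 else 0 := by
  unfold pn
  conv_lhs => rw [← MonoidAlgebra.basis_apply]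
  rw [Module.Basis.constr_basis]

theorem pn_of_mem {n k : ℕ} {x : FA F} (hx : x ∈ Hn F k) : pn F n x = if k = n then x else 0 := by
  unfold Hn at hx
  induction hx using Submodule.span_induction with
  | mem x hx =>
    obtain ⟨u, rfl, rfl⟩ := hx
    exact pn_single n u
  | zero => simp
  | add x y _ _ hx hy =>
    rw [map_add, hx, hy]
    split_ifs <;> simp
  | smul c x _ hx =>
    rw [map_smul, hx]
    split_ifs <;> simp

/-- the span of all Jordan monomials -/
noncomputable def SJ (F : Type) [Field F] : Submodule F (FA F) :=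
  Submodule.span F (Set.range (jm F))

theorem pn_SJ (n : ℕ) {x : FA F} (hx : x ∈ SJ F) : pn F n x ∈ En F n := by
  unfold SJ at hx
  induction hx using Submodule.span_induction with
  | mem x hx =>
    obtain ⟨m, rfl⟩ := hx
    rw [pn_of_mem (jm_mem_Hn m)]
    split_ifs with h
    · exact Submodule.subset_span ⟨m, h, rfl⟩
    · exact Submodule.zero_mem _
  | zero => rw [map_zero]; exact Submodule.zero_mem _
  | add x y _ _ hx hy => rw [map_add]; exact Submodule.add_mem _ hx hy
  | smul c x _ hx => rw [map_smul]; exact Submodule.smul_mem _ _ hx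

theorem SJ_closed (h2 : (2 : F) ≠ 0) : ∀ a ∈ SJ F, ∀ b ∈ SJ F, a * b + b * a ∈ SJ F := by
  intro a ha b hb
  unfold SJ at *
  induction ha using Submodule.span_induction with
  | mem x hx =>
    obtain ⟨m, rfl⟩ := hx
    induction hb using Submodule.span_induction with
    | mem y hy =>
      obtain ⟨m', rfl⟩ := hy
      have : jm F m * jm F m' + jm F m' * jm F m = (2 : F) • jm F (m * m') := by
        show _ = (2 : F) • ((2 : F)⁻¹ • (jm F m * jm F m' + jm F m' * jm F m))
        rw [smul_smul, mul_inv_cancel₀ h2, one_smul]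
      rw [this]
      exact Submodule.smul_mem _ _ (Submodule.subset_span ⟨_, rfl⟩)
    | zero => simp
    | add x y _ _ hx hy =>
      have : jm F m * (x + y) + (x + y) * jm F m =
        (jm F m * x + x * jm F m) + (jm F m * y + y * jm F m) := by noncomm_ring
      rw [this]
      exact Submodule.add_mem _ hx hy
    | smul c x _ hx =>
      rw [mul_smul_comm, smul_mul_assoc, ← smul_add]
      exact Submodule.smul_mem _ _ hx
  | zero => simp
  | add x y _ _ hx hy =>
    have : (x + y) * b + b * (x + y) = (x * b + b * x) + (y * b + b * y) := by noncomm_ring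
    rw [this]
    exact Submodule.add_mem _ hx hy
  | smul c x _ hx =>
    rw [mul_smul_comm, smul_mul_assoc, ← smul_add]
    exact Submodule.smul_mem _ _ hx

theorem prod_single_list (l : List (Fin 3)) :
    (l.map fun i => (MonoidAlgebra.single (FreeMonoid.of i) 1 : FA F)).prod =
      MonoidAlgebra.single (FreeMonoid.ofList l) 1 := by
  induction l with
  | nil => rfl
  | cons a l ih =>
    rw [List.map_cons, List.prod_cons, ih, MonoidAlgebra.single_mul_single, one_mul]
    rfl

/-- `w + w*` -/
noncomputable def TT (F : Type) [Field F] (l : List (Fin 3)) : FA F :=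
  MonoidAlgebra.single (FreeMonoid.ofList l) 1 + MonoidAlgebra.single (FreeMonoid.ofList l.reverse) 1

theorem TT_mem (h2 : (2 : F) ≠ 0) (l : List (Fin 3)) (hl : l ≠ []) : TT F l ∈ En F l.length := by
  have h1 := cohn3 (SJ F) (SJ_closed h2) h2 (fun i => MonoidAlgebra.single (FreeMonoid.of i) 1)
    (fun i => Submodule.subset_span ⟨FreeMagma.of i, rfl⟩) l.length l rfl hl
  have h3 : Pool.Agent.H67.PI.T (l.map fun i => (MonoidAlgebra.single (FreeMonoid.of i) 1 : FA F)) =
      TT F l := by
    unfold Pool.Agent.H67.PI.T TT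
    rw [← List.map_reverse, prod_single_list, prod_single_list]
  rw [h3] at h1
  have h4 : TT F l ∈ Hn F l.length := by
    refine Submodule.add_mem _ (Submodule.subset_span ⟨_, rfl, rfl⟩)
      (Submodule.subset_span ⟨_, ?_, rfl⟩)
    show l.reverse.length = _
    rw [List.length_reverse]
  have h5 := pn_SJ l.length h1
  rw [pn_of_mem h4, if_pos rfl] at h5
  exact h5

end Pool.Agent.U691.KM
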