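import Pool.Agent.U691.KM.Alg

/-!
# The bound in degree `18` and the contradiction
-/

set_option autoImplicit false

namespace Pool.Agent.U691.KM

open MvPowerSeries

variable {F : Type} [Field F]

/-- words of length `n` as functions -/
abbrev Wn (n : ℕ) : Type := Fin n → Fin 3

/-- reversal -/
def rv {n : ℕ} (w : Wn n) : Wn n := fun i => w i.rev

theorem rv_rv {n : ℕ} (w : Wn n) : rv (rv w) = w := by
  funext i
  simp [rv]

theorem ofFn_rv {n : ℕ} (w : Wn n) : (List.ofFn w).reverse = List.ofFn (rv w) := by
  apply List.ext_getElem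
  · simp
  · intro i h1 h2
    simp only [List.getElem_reverse, List.getElem_ofFn, List.length_ofFn]
    unfold rv
    congr 1
    ext
    simp [Fin.rev]
    omega

/-- a numbering of the words -/
noncomputable def nb (n : ℕ) : Wn n ≃ Fin (Fintype.card (Wn n)) := Fintype.equivFin _

/-- words which come no later than their reversal -/
abbrev Pn (n : ℕ) : Type := {w : Wn n // nb n w ≤ nb n (rv w)}

theorem card_Pn (n : ℕ) : 3 ^ n ≤ 2 * Nat.card (Pn n) := by
  classical
  rw [Nat.card_eq_fintype_card, Fintype.card_subtype]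
  set P := (Finset.univ : Finset (Wn n)).filter fun w => nb n w ≤ nb n (rv w) with hP
  have h1 : (Finset.univ : Finset (Wn n)) ⊆ P ∪ P.image rv := by
    intro w _
    rw [Finset.mem_union]
    by_cases h : nb n w ≤ nb n (rv w)
    · left; rw [hP, Finset.mem_filter]; exact ⟨Finset.mem_univ _, h⟩
    · right
      rw [Finset.mem_image]
      refine ⟨rv w, ?_, rv_rv w⟩
      rw [hP, Finset.mem_filter]
      refine ⟨Finset.mem_univ _, ?_⟩
      rw [rv_rv]
      exact (not_le.1 h).le
  have h2 := Finset.card_le_card h1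
  have h3 := (Finset.card_union_le P (P.image rv)).trans
    (Nat.add_le_add_left Finset.card_image_le _)
  have h4 : (Finset.univ : Finset (Wn n)).card = 3 ^ n := by simp
  omega

/-- the symmetric elements -/
noncomputable def ts (F : Type) [Field F] (n : ℕ) (w : Pn n) : FA F := TT F (List.ofFn w.1)

theorem ts_indep (h2 : (2 : F) ≠ 0) (n : ℕ) : LinearIndependent F (ts F n) := by
  classical
  rw [linearIndependent_iff']
  intro s g hg i hi
  have h3 := congrArg (fun f : FA F => f.coeff (FreeMonoid.ofList (List.ofFn i.1))) hg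
  simp only [MonoidAlgebra.coeff_sum, Finsupp.coe_finsetSum, Finset.sum_apply,
    MonoidAlgebra.coeff_smul_apply, MonoidAlgebra.coeff_zero, Finsupp.coe_zero,
    Pi.zero_apply] at h3
  have hinj : ∀ w w' : Wn n, FreeMonoid.ofList (List.ofFn w) = FreeMonoid.ofList (List.ofFn w') ↔
      w = w' := by
    intro w w'
    constructor
    · intro h
      exact List.ofFn_injective (FreeMonoid.ofList.injective h)
    · rintro rfl; rfl
  have h4 : ∀ j : Pn n, (ts F n j).coeff (FreeMonoid.ofList (List.ofFn i.1)) =
      (if j.1 = i.1 then 1 else 0) + (if rv j.1 = i.1 then 1 else 0) := by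
    intro j
    unfold ts TT
    rw [MonoidAlgebra.coeff_add, Finsupp.add_apply, MonoidAlgebra.coeff_single,
      MonoidAlgebra.coeff_single, Finsupp.single_apply, Finsupp.single_apply, ofFn_rv]
    simp only [hinj]
  rw [Finset.sum_eq_single_of_mem i hi] at h3
  · rw [h4, if_pos rfl] at h3
    split_ifs at h3 with h5
    · have : (1 + 1 : F) = 2 := by norm_num
      rw [this, smul_eq_mul, mul_eq_zero] at h3
      exact h3.resolve_right h2
    · simpa using h3
  · intro j _ hj
    rw [h4, if_neg (fun h => hj (Subtype.ext h)), if_neg, add_zero, smul_zero]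
    intro h
    apply hj
    have h5 : j.1 = rv i.1 := by rw [← h, rv_rv]
    have h6 := j.2
    have h7 := i.2
    rw [h5, rv_rv] at h6
    have h8 := (nb n).injective (le_antisymm h7 h6)
    exact Subtype.ext (h5.trans h8.symm)

theorem finrank_En_ge (h2 : (2 : F) ≠ 0) {n : ℕ} (hn : 1 ≤ n) :
    3 ^ n ≤ 2 * Module.finrank F (En F n) := by
  classical
  refine (card_Pn n).trans (Nat.mul_le_mul_left 2 ?_)
  have h1 := finrank_span_eq_card (ts_indep h2 n)
  rw [Nat.card_eq_fintype_card, ← h1]
  have h3 : Submodule.span F (Set.range (ts F n)) ≤ En F n := by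
    rw [Submodule.span_le]
    rintro _ ⟨w, rfl⟩
    have h4 := TT_mem h2 (List.ofFn w.1) (by
      intro h
      have := congrArg List.length h
      rw [List.length_ofFn, List.length_nil] at this
      omega)
    rw [List.length_ofFn] at h4
    exact h4
  have hfin : FiniteDimensional F (En F n) := by
    unfold En
    apply FiniteDimensional.span_of_finite
    have h : ({y | ∃ m : FreeMagma (Fin 3), (mdeg m).degree = n ∧ y = jm F m} : Set (FA F)) ⊆
        jm F '' {m : FreeMagma (Fin 3) | (mdeg m).degree = n} := by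
      rintro _ ⟨m, hm, rfl⟩
      exact ⟨m, hm, rfl⟩
    exact ((finite_mono _).image _).subset h
  exact Submodule.finrank_mono h3

/-- the coefficient ring `ℤ[t]/(t^19)` -/
abbrev K19 : Type := Polynomial ℤ ⧸ (Ideal.span {(Polynomial.X : Polynomial ℤ) ^ 19})

/-- the class of `t` -/
noncomputable def t19 : K19 := Ideal.Quotient.mk _ Polynomial.X

theorem t19_pow : t19 ^ 19 = 0 := by
  unfold t19
  rw [← map_pow, Ideal.Quotient.eq_zero_iff_mem]
  exact Ideal.mem_span_singleton_self _

theorem t19_faithful (δ : ℤ) (h : (δ : K19) * t19 ^ 18 = 0) : δ = 0 := by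
  unfold t19 at h
  have h1 : (δ : K19) = Ideal.Quotient.mk _ (Polynomial.C δ) := by
    rw [← map_intCast (Ideal.Quotient.mk (Ideal.span {(Polynomial.X : Polynomial ℤ) ^ 19})) δ]
    simp
  rw [h1, ← map_pow, ← map_mul, Ideal.Quotient.eq_zero_iff_mem, Ideal.mem_span_singleton,
    Polynomial.X_pow_dvd_iff] at h
  have h2 := h 18 (by norm_num)
  simpa using h2

/-- the total dimension predicted in degree `18` -/
theorem tot_18 {a b : R 3} (h : IsPair a b) : tot a 18 = 193681917 := by
  have h1 := EK_pair t19_pow h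
  have h2 : EK t19 (PsiA t19 (fun m => (aN m : ℤ))) = 0 := by
    have : PsiA t19 (fun m => (aN m : ℤ)) = PsiK t19 := by
      unfold PsiA PsiK
      refine Finset.prod_congr rfl fun m _ => ?_
      rw [ipow_nat, ipow_nat]
    rw [this]
    exact EK_PsiK t19_pow
  have h3 := first_diff t19_pow h1 h2 t19_faithful 18 (by norm_num) le_rfl
  rw [h3]
  rfl

/-- the formula fails for `dim V = 3` -/
theorem chJord_ne (h2 : (2 : F) ≠ 0) {a b : R 3} (h : IsPair a b) : chJord F 3 ≠ a := by
  intro ha
  have h1 := tot_18 h
  rw [← ha] at h1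
  have h3 := finrank_En_le (F := F) 18
  have h4 := finrank_En_ge h2 (n := 18) (by norm_num)
  rw [h1] at h3
  omega

end Pool.Agent.U691.KM
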