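import Mathlib

/-!
# The Kashuba–Mathieu character formula for free Jordan algebras: definitions

`GL(V)`, `dim V = d`, acts on the free Jordan algebra `Jord(V)`; classes in the completed
Grothendieck ring of polynomial `GL(V)`-modules are given by their formal characters, which are
power series in `d` variables with integer coefficients.  Classes of `PSL₂`-modules are given by
their characters, which are integral combinations of the `e^i`, `i ∈ ℤ`, where `e^i` stands for
the weight `i α` (`α` the positive root; `2 i` in the usual normalisation).
-/

set_option autoImplicit false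

namespace Pool.Agent.U691.KM

open MvPowerSeries

/-- Integral combinations of the symbols `e^i`, where `i` stands for the weight `i α`: the home
of the characters of `PSL₂`-modules. -/
abbrev Lau : Type := AddMonoidAlgebra ℤ ℤ

/-- `e^i` -/
noncomputable def ex (i : ℤ) : Lau := AddMonoidAlgebra.single i 1

/-- the character `e^1 + 1 + e^(-1)` of the adjoint module `L(2)` of `PSL₂` -/
noncomputable def adjChar : Lau := 1 + ex 1 + ex (-1)

/-- The multiplicity of the irreducible module with highest weight `i α`, that is `L(2 i)`, in a
(virtual) `PSL₂`-module with character `f`: the dimension of the weight space of `i α` minus the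
dimension of the weight space of `(i + 1) α`. -/
noncomputable def mult (i : ℤ) (f : Lau) : ℤ := f.coeff i - f.coeff (i + 1)

/-- Formal characters of graded virtual `GL(V)`-modules, `dim V = d` (completed Grothendieck
ring of the polynomial `GL(V)`-modules). -/
abbrev R (d : ℕ) : Type := MvPowerSeries (Fin d) ℤ

/-- Formal characters of graded virtual `GL(V) × PSL₂`-modules. -/
abbrev RK (d : ℕ) : Type := MvPowerSeries (Fin d) Lau

/-- the class `a [L(2)] + b [L(0)]` -/
noncomputable def cls {d : ℕ} (a b : R d) : RK d :=
  fun w => coeff w a • adjChar + coeff w b • (1 : Lau)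

/-- `[x : [L(2 i)]]`, the coefficient of `[L(2 i)]` in `x`, an element of `R d` -/
noncomputable def coefL {d : ℕ} (i : ℤ) (x : RK d) : R d :=
  fun w => mult i (coeff w x)

/-- the power `u ^ n` with an integral exponent, for a unit `u` of a commutative ring -/
noncomputable def ipow {A : Type} [CommRing A] (u : A) : ℤ → A
  | Int.ofNat n => u ^ n
  | Int.negSucc n => Ring.inverse u ^ (n + 1)

/-- the exponents `v` of total degree `1, …, n` -/
def expos (d n : ℕ) : Finset (Fin d →₀ ℕ) :=
  (Finset.Icc 1 n).biUnion fun m => Finset.univ.finsuppAntidiag m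

/-- the product of the factors `(1 - x^v e^i)^(m(v, i))`, where `m(v, i)` is the coefficient of
`x^v e^i` in `X`, over all `v` of total degree `1, …, n` and all `i` -/
noncomputable def lamProd {d : ℕ} (X : RK d) (n : ℕ) : RK d :=
  ∏ v ∈ expos d n, ∏ i ∈ (coeff v X).coeff.support,
    ipow (1 - monomial v (ex i)) ((coeff v X).coeff i)

/-- The operation `λ` on classes without constant term:
`λ(∑ m(v, i) x^v e^i) = ∏ (1 - x^v e^i)^(m(v, i))`, which is `∑ (-1)^j [Λ^j U]` for the class of a
module `U`.  The coefficient of `x^w` in this infinite product is that of the product of the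
factors with `v` of total degree at most that of `w`. -/
noncomputable def lam {d : ℕ} (X : RK d) : RK d := fun w => coeff w (lamProd X w.degree)

/-- `(a, b)` satisfies the equations which define the pair `(a(V), b(V))`, `dim V = d`: both are
in the augmentation ideal and `Φ = λ(a [L(2)] + b [L(0)])` has `[Φ : [L(0)]] = 1` and
`[Φ : [L(2)]] = - [V]`. -/
def IsPair {d : ℕ} (a b : R d) : Prop :=
  constantCoeff a = 0 ∧ constantCoeff b = 0 ∧
    coefL 0 (lam (cls a b)) = 1 ∧ coefL 1 (lam (cls a b)) = - ∑ i, X i

section Jord

variable (F : Type) [Field F] (d : ℕ)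

/-- The kernel of the map from the free nonassociative algebra (without unit) on `x₁, …, x_d` onto
the free Jordan algebra: the smallest two-sided ideal which contains all `uv - vu` and
`((uu)v)u - (uu)(vu)`. -/
noncomputable def jordKer : Submodule F (MonoidAlgebra F (FreeMagma (Fin d))) :=
  sInf {I | (∀ u v : MonoidAlgebra F (FreeMagma (Fin d)),
      u * v - v * u ∈ I ∧ ((u * u) * v) * u - (u * u) * (v * u) ∈ I) ∧
    ∀ a : MonoidAlgebra F (FreeMagma (Fin d)), ∀ x ∈ I, a * x ∈ I ∧ x * a ∈ I}

/-- the free Jordan algebra `Jord(V)` without unit, `V` with basis `x₁, …, x_d` -/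
abbrev FreeJord : Type := MonoidAlgebra F (FreeMagma (Fin d)) ⧸ jordKer F d

/-- the multidegree of a nonassociative monomial -/
noncomputable def mdeg {d : ℕ} : FreeMagma (Fin d) → (Fin d →₀ ℕ)
  | FreeMagma.of i => Finsupp.single i 1
  | FreeMagma.mul a b => mdeg a + mdeg b

/-- the weight space of multidegree `w` of `Jord(V)`: the span of the monomials of
multidegree `w` -/
noncomputable def jordWt (w : Fin d →₀ ℕ) : Submodule F (FreeJord F d) :=
  Submodule.span F {y | ∃ m : FreeMagma (Fin d), mdeg m = w ∧
    y = (jordKer F d).mkQ (MonoidAlgebra.single m 1)}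

/-- the class `[Jord(V)]`: the formal character `∑_w dim Jord(V)_w x^w` -/
noncomputable def chJord : R d := fun w => (Module.finrank F (jordWt F d w) : ℤ)

end Jord

end Pool.Agent.U691.KM
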