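import Pool.Agent.U691.KM.Num

/-!
# The product over the weights in a group ring over `K`, `t^19 = 0`
-/

set_option autoImplicit false

namespace Pool.Agent.U691.KM

/-- `∏_{m ≤ 18} (1 - t^m z)^(aN m)` -/
def FL : List (List ℤ) := [[1],
  [0, -3, -6, -18, -45, -135, -378, -1134, -3324, -9981, -29733, -89280, -267273, -801957, -2403018, -7203942,
    -21582282, -64661358, -193681917],
  [0, 0, 3, 18, 69, 243, 828, 2754, 9090, 29655, 96354, 310977, 999819, 3199230, 10200852, 32405499, 102625599,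
    324036648, 1020459123],
  [0, 0, 0, -1, -18, -99, -479, -1944, -7587, -28167, -102096, -361935, -1264569, -4360986, -14888430, -50378112,
    -169187562, -564408027, -1871840439],
  [0, 0, 0, 0, 0, 6, 63, 429, 2229, 10377, 44496, 181344, 710721, 2708610, 10090203, 36920835, 133075005, 473643333,
    1667550807],
  [0, 0, 0, 0, 0, 0, 0, -15, -168, -1278, -7485, -38646, -181881, -804843, -3397896, -13844286, -54822420, -212146191,
    -805319091],
  [0, 0, 0, 0, 0, 0, 0, 0, 0, 20, 315, 2691, 18097, 103626, 536409, 2576736, 11716263, 51022530, 214711623],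
  [0, 0, 0, 0, 0, 0, 0, 0, 0, 0, 0, -15, -378, -4008, -31275, -202338, -1159353, -6083907, -29900529],
  [0, 0, 0, 0, 0, 0, 0, 0, 0, 0, 0, 0, 0, 6, 273, 4059, 38214, 286434, 1843965],
  [0, 0, 0, 0, 0, 0, 0, 0, 0, 0, 0, 0, 0, 0, 0, -1, -108, -2619, -32169],
  [0, 0, 0, 0, 0, 0, 0, 0, 0, 0, 0, 0, 0, 0, 0, 0, 0, 0, 18]]

set_option maxRecDepth 100000 in
theorem FO_18 : FO 18 = FL := by decide +kernel

/-- the coefficient of `z^k` -/
def fc (k : ℕ) : List ℤ := FL.getD k []

/-- the coefficient of `z^i` in `F(z) F(1/z)` -/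
def cI (i : ℕ) : List ℤ :=
  (List.range 11).foldr (fun k s => addI ((mulI (fc (k + i)) (fc k)).take 19) s) []

/-- `(c₁ - c₂) + 3 t (c₀ - c₁)` modulo `t^19` -/
def EI : List ℤ :=
  (addI (addI (cI 1) ((cI 2).map fun x => -1 * x))
    (0 :: (addI (cI 0) ((cI 1).map fun x => -1 * x)).map fun x => 3 * x)).take 19

set_option maxRecDepth 100000 in
theorem EI_zero : trimI EI = [] := by decide +kernel

variable {K : Type} [CommRing K]

/-- `e^i` over `K` -/
noncomputable def eK (K : Type) [CommRing K] (i : ℤ) : AddMonoidAlgebra K ℤ :=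
  AddMonoidAlgebra.single i 1

theorem eK_mul (i j : ℤ) : eK K i * eK K j = eK K (i + j) := by
  unfold eK
  rw [AddMonoidAlgebra.single_mul_single, one_mul]

theorem eK_zero : eK K 0 = 1 := rfl

theorem eK_pow (i : ℤ) (n : ℕ) : eK K i ^ n = eK K (n * i) := by
  unfold eK
  rw [AddMonoidAlgebra.single_pow, one_pow]
  simp

theorem coeff_eK (i j : ℤ) : (eK K i).coeff j = if i = j then 1 else 0 := by
  unfold eK
  rw [AddMonoidAlgebra.coeff_single, Finsupp.single_apply]

/-- the combination `(c₁ - c₂) + 3 t (c₀ - c₁)` of coefficients -/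
noncomputable def EK (τ : K) (f : AddMonoidAlgebra K ℤ) : K :=
  (f.coeff 1 - f.coeff 2) + 3 * τ * (f.coeff 0 - f.coeff 1)

theorem EK_add (τ : K) (f g : AddMonoidAlgebra K ℤ) : EK τ (f + g) = EK τ f + EK τ g := by
  unfold EK
  simp only [AddMonoidAlgebra.coeff_add, Finsupp.add_apply]
  ring

theorem EK_smul (τ c : K) (f : AddMonoidAlgebra K ℤ) : EK τ (c • f) = c * EK τ f := by
  unfold EK
  simp only [AddMonoidAlgebra.coeff_smul_apply, smul_eq_mul]
  ring

variable {τ : K}

/-- `algebraMap` of `τ` -/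
noncomputable abbrev tt (τ : K) : AddMonoidAlgebra K ℤ := algebraMap K (AddMonoidAlgebra K ℤ) τ

theorem evI_map_alg (τ : K) (l : List ℤ) :
    evI (tt τ) l = algebraMap K (AddMonoidAlgebra K ℤ) (evI τ l) := by
  induction l with
  | nil => simp [evI]
  | cons a l ih =>
    simp only [evI, ih, map_add, map_mul, map_intCast]

theorem evO_eq_sum (τ : K) (z : AddMonoidAlgebra K ℤ) :
    evO (tt τ) z FL = ∑ k ∈ Finset.range 11, evI τ (fc k) • z ^ k := by
  simp only [Finset.sum_range_succ, Finset.sum_range_zero, fc, FL, List.getD_cons_zero,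
    List.getD_cons_succ, evO, Algebra.smul_def, ← evI_map_alg]
  ring

/-- the product `∏ (1 - t^m z)^(aN m) (1 - t^m z⁻¹)^(aN m)` -/
noncomputable def PsiK (τ : K) : AddMonoidAlgebra K ℤ :=
  ∏ m ∈ Finset.Icc 1 18, ((1 - tt τ ^ m * eK K 1) ^ aN m * (1 - tt τ ^ m * eK K (-1)) ^ aN m)

theorem tt_pow (hτ : τ ^ 19 = 0) : (tt τ) ^ 19 = 0 := by
  rw [← map_pow, hτ, map_zero]

theorem PsiK_eq (hτ : τ ^ 19 = 0) : PsiK τ = ∑ k ∈ Finset.range 11, ∑ l ∈ Finset.range 11,
    (evI τ (fc k) * evI τ (fc l)) • eK K ((k : ℤ) - l) := by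
  unfold PsiK
  rw [Finset.prod_mul_distrib, ← evO_FO (tt_pow hτ) _ le_rfl, ← evO_FO (tt_pow hτ) _ le_rfl,
    FO_18, evO_eq_sum, evO_eq_sum, Finset.sum_mul_sum]
  refine Finset.sum_congr rfl fun k _ => Finset.sum_congr rfl fun l _ => ?_
  rw [smul_mul_smul_comm, eK_pow, eK_pow, eK_mul]
  congr 2
  ring

theorem fc_big {k : ℕ} (hk : 11 ≤ k) : fc k = [] := by
  unfold fc
  apply List.getD_eq_default
  simpa [FL] using hk

theorem evI_cI (hτ : τ ^ 19 = 0) (i : ℕ) :
    evI τ (cI i) = ∑ k ∈ Finset.range 11, evI τ (fc (k + i)) * evI τ (fc k) := by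
  unfold cI
  simp only [List.range, List.range.loop, List.foldr, evI_addI, evI_take hτ, evI_mulI, evI,
    Finset.sum_range_succ, Finset.sum_range_zero]
  ring

theorem PsiK_coeff (hτ : τ ^ 19 = 0) (i : ℕ) : (PsiK τ).coeff (i : ℤ) = evI τ (cI i) := by
  rw [PsiK_eq hτ, evI_cI hτ]
  simp only [AddMonoidAlgebra.coeff_sum, Finsupp.coe_finsetSum, Finset.sum_apply,
    AddMonoidAlgebra.coeff_smul_apply, coeff_eK]
  rw [Finset.sum_comm]
  refine Finset.sum_congr rfl fun l hl => ?_
  by_cases h : l + i < 11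
  · rw [Finset.sum_eq_single_of_mem (l + i) (Finset.mem_range.2 h)]
    · rw [if_pos (by push_cast; ring)]
      simp
    · intro k _ hk
      rw [if_neg, smul_zero]
      omega
  · rw [fc_big (k := l + i) (by omega)]
    simp only [evI, zero_mul]
    refine Finset.sum_eq_zero fun k hk => ?_
    rw [Finset.mem_range] at hk
    rw [if_neg, smul_zero]
    omega

/-- the numerical fact -/
theorem EK_PsiK (hτ : τ ^ 19 = 0) : EK τ (PsiK τ) = 0 := by
  unfold EK
  have h0 := PsiK_coeff (τ := τ) hτ 0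
  have h1 := PsiK_coeff (τ := τ) hτ 1
  have h2 := PsiK_coeff (τ := τ) hτ 2
  simp only [Nat.cast_zero, Nat.cast_one, Nat.cast_ofNat] at h0 h1 h2
  rw [h0, h1, h2]
  have h3 : evI τ EI = 0 := by
    rw [← evI_trimI, EI_zero]
    rfl
  unfold EI at h3
  rw [evI_take hτ, evI_addI, evI_addI, evI_map, evI, evI_map, evI_addI, evI_map] at h3
  push_cast at h3
  linear_combination h3

end Pool.Agent.U691.KM
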