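import Pool.Agent.U691.KM.Defs
import Pool.Agent.U691.KM.Psi

/-!
# Evaluation of characters at `x_i = τ`, `τ^19 = 0`
-/

set_option autoImplicit false

namespace Pool.Agent.U691.KM

open MvPowerSeries

variable {d : ℕ}

/-- the exponents of degree less than `19` -/
def low (d : ℕ) : Finset (Fin d →₀ ℕ) :=
  (Finset.range 19).biUnion fun m => Finset.univ.finsuppAntidiag m

theorem mem_fsa {m : ℕ} {w : Fin d →₀ ℕ} :
    w ∈ (Finset.univ : Finset (Fin d)).finsuppAntidiag m ↔ w.degree = m := by
  rw [Finset.mem_finsuppAntidiag]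
  rw [Finsupp.degree_eq_sum]
  simp

theorem mem_low {w : Fin d →₀ ℕ} : w ∈ low d ↔ w.degree < 19 := by
  unfold low
  simp only [Finset.mem_biUnion, Finset.mem_range, mem_fsa]
  constructor
  · rintro ⟨m, hm, rfl⟩; exact hm
  · intro h; exact ⟨_, h, rfl⟩

theorem mem_expos {n : ℕ} {w : Fin d →₀ ℕ} : w ∈ expos d n ↔ 1 ≤ w.degree ∧ w.degree ≤ n := by
  unfold expos
  simp only [Finset.mem_biUnion, Finset.mem_Icc, mem_fsa]
  constructor
  · rintro ⟨m, hm, rfl⟩; exact hm
  · intro h; exact ⟨_, h, rfl⟩

section K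

variable {K : Type} [CommRing K]

/-- base change of group rings -/
noncomputable def bc (K : Type) [CommRing K] : Lau →+* AddMonoidAlgebra K ℤ :=
  AddMonoidAlgebra.mapRingHom ℤ (Int.castRingHom K)

theorem bc_ex (i : ℤ) : bc K (ex i) = eK K i := by
  unfold bc ex eK
  rw [AddMonoidAlgebra.mapRingHom_single, map_one]

theorem bc_coeff (f : Lau) (i : ℤ) : (bc K f).coeff i = (f.coeff i : K) := by
  unfold bc
  simp

variable {τ : K} (hτ : τ ^ 19 = 0)

include hτ in
theorem tt_ge {n : ℕ} (h : 19 ≤ n) : (tt τ) ^ n = 0 := by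
  obtain ⟨k, rfl⟩ := Nat.exists_eq_add_of_le h
  rw [pow_add, tt_pow hτ, zero_mul]

/-- evaluation -/
noncomputable def evs (τ : K) (f : RK d) : AddMonoidAlgebra K ℤ :=
  ∑ w ∈ low d, tt τ ^ w.degree * bc K (coeff w f)

include hτ in
theorem evs_mul (f g : RK d) : evs τ (f * g) = evs τ f * evs τ g := by
  classical
  unfold evs
  rw [Finset.sum_mul_sum, ← Finset.sum_product']
  set h : (Fin d →₀ ℕ) × (Fin d →₀ ℕ) → AddMonoidAlgebra K ℤ := fun p =>
    tt τ ^ p.1.degree * bc K (coeff p.1 f) * (tt τ ^ p.2.degree * bc K (coeff p.2 g)) with hh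
  have h1 : ∀ w ∈ low d, tt τ ^ w.degree * bc K (coeff w (f * g)) =
      ∑ p ∈ ((low d ×ˢ low d).filter fun p => p.1 + p.2 ∈ low d).filter (fun p => p.1 + p.2 = w),
        h p := by
    intro w hw
    have h2 : (((low d ×ˢ low d).filter fun p => p.1 + p.2 ∈ low d).filter
        (fun p => p.1 + p.2 = w)) = Finset.HasAntidiagonal.antidiagonal w := by
      ext p
      simp only [Finset.mem_filter, Finset.mem_product, Finset.HasAntidiagonal.mem_antidiagonal,
        mem_low]
      rw [mem_low] at hw
      constructor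
      · intro hp; exact hp.2
      · intro hp
        have h3 : p.1.degree + p.2.degree = w.degree := by rw [← hp, map_add]
        rw [hp]
        refine ⟨⟨⟨?_, ?_⟩, ?_⟩, rfl⟩ <;> omega
    rw [h2, coeff_mul, map_sum, Finset.mul_sum]
    refine Finset.sum_congr rfl fun p hp => ?_
    rw [Finset.HasAntidiagonal.mem_antidiagonal] at hp
    rw [hh, ← hp, map_mul, map_add, pow_add]
    ring
  rw [Finset.sum_congr rfl h1, Finset.sum_fiberwise_of_maps_to]
  · refine Finset.sum_subset (Finset.filter_subset _ _) ?_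
    intro p hp hp2
    rw [Finset.mem_filter, not_and] at hp2
    have h3 := hp2 hp
    rw [mem_low, map_add, not_lt] at h3
    rw [hh]
    calc tt τ ^ p.1.degree * bc K (coeff p.1 f) * (tt τ ^ p.2.degree * bc K (coeff p.2 g))
        = tt τ ^ (p.1.degree + p.2.degree) * (bc K (coeff p.1 f) * bc K (coeff p.2 g)) := by
          rw [pow_add]; ring
      _ = 0 := by rw [tt_ge hτ h3, zero_mul]
  · intro p hp
    rw [Finset.mem_filter] at hp
    exact hp.2

/-- evaluation as a ring homomorphism -/
noncomputable def ev (d : ℕ) (hτ : τ ^ 19 = 0) : RK d →+* AddMonoidAlgebra K ℤ where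
  toFun := evs τ
  map_mul' := evs_mul hτ
  map_one' := by
    classical
    unfold evs
    rw [Finset.sum_eq_single_of_mem 0]
    · simp
    · rw [mem_low]; simp
    · intro w _ hw
      rw [coeff_one, if_neg hw, map_zero, mul_zero]
  map_zero' := by
    unfold evs
    simp
  map_add' f g := by
    unfold evs
    rw [← Finset.sum_add_distrib]
    refine Finset.sum_congr rfl fun w _ => ?_
    rw [map_add, map_add, mul_add]

theorem ev_apply (f : RK d) : ev d hτ f = ∑ w ∈ low d, tt τ ^ w.degree * bc K (coeff w f) := rfl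

theorem ev_monomial (v : Fin d →₀ ℕ) (t : Lau) :
    ev d hτ (monomial v t) = tt τ ^ v.degree * bc K t := by
  classical
  rw [ev_apply]
  by_cases hv : v ∈ low d
  · rw [Finset.sum_eq_single_of_mem v hv]
    · rw [coeff_monomial_same]
    · intro w _ hw
      rw [coeff_monomial_ne hw, map_zero, mul_zero]
  · rw [mem_low, not_lt] at hv
    rw [tt_ge hτ hv, zero_mul]
    refine Finset.sum_eq_zero fun w hw => ?_
    rw [coeff_monomial_ne, map_zero, mul_zero]
    rintro rfl
    rw [mem_low] at hw
    omega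

end K

/-! ### integral powers -/

theorem ipow_map {A B : Type} [CommRing A] [CommRing B] (φ : A →+* B) {u : A} (hu : IsUnit u)
    (n : ℤ) : φ (ipow u n) = ipow (φ u) n := by
  cases n with
  | ofNat n => simp [ipow]
  | negSucc n =>
    simp only [ipow]
    rw [map_pow]
    congr 1
    obtain ⟨x, rfl⟩ := hu
    rw [Ring.inverse_unit]
    have : φ (x : A) = ((Units.map (φ : A →* B) x : Bˣ) : B) := rfl
    rw [this, Ring.inverse_unit, ← map_inv]
    rfl

theorem ipow_one {A : Type} [CommRing A] (n : ℤ) : ipow (1 : A) n = 1 := by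
  cases n with
  | ofNat n => simp [ipow]
  | negSucc n => simp [ipow]

theorem ipow_zero {A : Type} [CommRing A] (u : A) : ipow u 0 = 1 := by
  show ipow u (Int.ofNat 0) = 1
  simp [ipow]

theorem ipow_nat {A : Type} [CommRing A] (u : A) (n : ℕ) : ipow u (n : ℤ) = u ^ n := rfl

theorem ipow_unit {A : Type} [CommRing A] (x : Aˣ) (n : ℤ) : ipow (x : A) n = ((x ^ n : Aˣ) : A) := by
  cases n with
  | ofNat n => simp [ipow]
  | negSucc n =>
    simp only [ipow, Ring.inverse_unit, zpow_negSucc]
    rw [← Units.val_pow_eq_pow_val, inv_pow]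

theorem ipow_add {A : Type} [CommRing A] {u : A} (hu : IsUnit u) (m n : ℤ) :
    ipow u (m + n) = ipow u m * ipow u n := by
  obtain ⟨x, rfl⟩ := hu
  rw [ipow_unit, ipow_unit, ipow_unit, zpow_add, Units.val_mul]

theorem ipow_sum {A ι : Type} [CommRing A] {u : A} (hu : IsUnit u) (s : Finset ι) (f : ι → ℤ) :
    ∏ i ∈ s, ipow u (f i) = ipow u (∑ i ∈ s, f i) := by
  classical
  induction s using Finset.induction_on with
  | empty => simp [ipow_zero]
  | insert a s ha ih => rw [Finset.prod_insert ha, Finset.sum_insert ha, ih, ipow_add hu]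

theorem isUnit_fac {v : Fin d →₀ ℕ} (hv : 1 ≤ v.degree) (t : Lau) :
    IsUnit (1 - monomial v t : RK d) := by
  rw [MvPowerSeries.isUnit_iff_constantCoeff]
  rw [map_sub, map_one]
  have : constantCoeff (monomial v t : RK d) = 0 := by
    rw [← coeff_zero_eq_constantCoeff_apply]
    apply coeff_monomial_ne
    rintro rfl
    simp at hv
  rw [this, sub_zero]
  exact isUnit_one

theorem ipow_one_sub {A : Type} [CommRing A] {m : A} (h : m * m = 0) (k : ℤ) :
    ipow (1 - m) k = 1 - k * m := by
  cases k with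
  | ofNat n =>
    show (1 - m) ^ n = 1 - ((n : ℤ) : A) * m
    induction n with
    | zero => simp
    | succ n ih =>
      rw [pow_succ, ih]
      push_cast
      linear_combination (n : A) * h
  | negSucc n =>
    show Ring.inverse (1 - m) ^ (n + 1) = 1 - ((Int.negSucc n : ℤ) : A) * m
    have h1 : (1 - m) * (1 + m) = 1 := by linear_combination -h
    have h2 : Ring.inverse (1 - m) = 1 + m := by
      have : ((⟨1 - m, 1 + m, h1, by rw [mul_comm, h1]⟩ : Aˣ) : A) = 1 - m := rfl
      rw [← this, Ring.inverse_unit]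
      rfl
    rw [h2]
    have h3 : ∀ k : ℕ, (1 + m) ^ k = 1 + k * m := by
      intro k
      induction k with
      | zero => simp
      | succ n ih =>
        rw [pow_succ, ih]
        push_cast
        linear_combination (n : A) * h
    rw [h3, Int.cast_negSucc]
    ring

/-- the ideal of the series without terms of degree at most `n` -/
def hiIdeal (d n : ℕ) : Ideal (RK d) where
  carrier := {f | ∀ w : Fin d →₀ ℕ, w.degree ≤ n → coeff w f = 0}
  add_mem' := by
    intro f g hf hg w hw
    rw [map_add, hf w hw, hg w hw, add_zero]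
  zero_mem' := by
    intro w _
    rw [map_zero]
  smul_mem' := by
    classical
    intro f g hg w hw
    rw [smul_eq_mul, coeff_mul]
    refine Finset.sum_eq_zero fun p hp => ?_
    rw [Finset.HasAntidiagonal.mem_antidiagonal] at hp
    rw [hg p.2, mul_zero]
    have : p.1.degree + p.2.degree = w.degree := by rw [← hp, map_add]
    omega

theorem mk_fac {n : ℕ} {v : Fin d →₀ ℕ} (hv : n < v.degree) (t : Lau) :
    Ideal.Quotient.mk (hiIdeal d n) (1 - monomial v t) = 1 := by
  rw [map_sub, map_one, sub_eq_self, Ideal.Quotient.eq_zero_iff_mem]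
  intro w hw
  apply coeff_monomial_ne
  rintro rfl
  omega

theorem lamProd_succ (X : RK d) (n : ℕ) : lamProd X (n + 1) = lamProd X n *
    ∏ v ∈ Finset.univ.finsuppAntidiag (n + 1), ∏ μ ∈ (coeff v X).coeff.support,
    ipow (1 - monomial v (ex μ)) ((coeff v X).coeff μ) := by
  unfold lamProd
  have h : expos d (n + 1) = expos d n ∪ Finset.univ.finsuppAntidiag (n + 1) := by
    ext w
    rw [Finset.mem_union, mem_expos, mem_expos, mem_fsa]
    omega
  rw [h, Finset.prod_union]
  rw [Finset.disjoint_left]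
  intro w hw hw2
  rw [mem_expos] at hw
  rw [mem_fsa] at hw2
  omega

theorem mk_lamProd_succ (X : RK d) (n : ℕ) :
    Ideal.Quotient.mk (hiIdeal d n) (lamProd X (n + 1)) =
      Ideal.Quotient.mk (hiIdeal d n) (lamProd X n) := by
  rw [lamProd_succ, map_mul]
  conv_rhs => rw [← mul_one (Ideal.Quotient.mk (hiIdeal d n) (lamProd X n))]
  congr 1
  rw [map_prod]
  refine Finset.prod_eq_one fun v hv => ?_
  rw [mem_fsa] at hv
  rw [map_prod]
  refine Finset.prod_eq_one fun μ _ => ?_
  rw [ipow_map _ (isUnit_fac (by omega) _), mk_fac (by omega), ipow_one]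

theorem coeff_lamProd (X : RK d) (w : Fin d →₀ ℕ) (n : ℕ) (hn : w.degree ≤ n) :
    coeff w (lamProd X n) = coeff w (lamProd X w.degree) := by
  obtain ⟨k, rfl⟩ := Nat.exists_eq_add_of_le hn
  clear hn
  induction k with
  | zero => rfl
  | succ k ih =>
    rw [← ih]
    have h := mk_lamProd_succ X (w.degree + k)
    rw [Ideal.Quotient.eq] at h
    have h2 := h w (by omega)
    rw [map_sub, sub_eq_zero] at h2
    exact h2

end Pool.Agent.U691.KM
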