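import Mathlib

/-!
# Numerical part: truncated polynomials as lists of integers
-/

set_option autoImplicit false

namespace Pool.Agent.U691.KM

section Lists

variable {A : Type} [CommRing A]

/-- value of a polynomial at `t` -/
def evI (t : A) : List ℤ → A
  | [] => 0
  | c :: l => (c : A) + t * evI t l

/-- sum -/
def addI : List ℤ → List ℤ → List ℤ
  | [], b => b
  | a :: l, [] => a :: l
  | a :: l, b :: k => (a + b) :: addI l k

/-- product -/
def mulI : List ℤ → List ℤ → List ℤ
  | [], _ => []
  | a :: l, b => addI (b.map fun c => a * c) (0 :: mulI l b)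

/-- remove zeros at the end -/
def trimI : List ℤ → List ℤ
  | [] => []
  | a :: l => match trimI l with
    | [] => if a = 0 then [] else [a]
    | b :: k => a :: b :: k

/-- powers, truncated to `n` terms -/
def powI (n : ℕ) : ℕ → List ℤ → ℕ → List ℤ
  | 0, _, _ => [1]
  | f + 1, b, e =>
    if e = 0 then [1] else
      if e % 2 = 1 then (mulI (powI n f ((mulI b b).take n) (e / 2)) b).take n
      else powI n f ((mulI b b).take n) (e / 2)

theorem evI_addI (t : A) (a b : List ℤ) : evI t (addI a b) = evI t a + evI t b := by
  induction a generalizing b with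
  | nil => simp [addI, evI]
  | cons x l ih =>
    cases b with
    | nil => simp [addI, evI]
    | cons y k =>
      simp only [addI, evI, ih]
      push_cast
      ring

theorem evI_map (t : A) (a : ℤ) (b : List ℤ) :
    evI t (b.map fun c => a * c) = a * evI t b := by
  induction b with
  | nil => simp [evI]
  | cons y k ih =>
    simp only [List.map_cons, evI, ih]
    push_cast
    ring

theorem evI_mulI (t : A) (a b : List ℤ) : evI t (mulI a b) = evI t a * evI t b := by
  induction a with
  | nil => simp [mulI, evI]
  | cons x l ih =>
    simp only [mulI, evI_addI, evI_map, evI, ih]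
    push_cast
    ring

theorem evI_trimI (t : A) (a : List ℤ) : evI t (trimI a) = evI t a := by
  induction a with
  | nil => rfl
  | cons x l ih =>
    unfold trimI
    split
    · rename_i h
      rw [h] at ih
      split_ifs with hx
      · subst hx
        simp only [evI] at ih ⊢
        rw [← ih]; simp
      · simp only [evI] at ih ⊢
        rw [← ih]
    · rename_i b k h
      rw [h] at ih
      simp only [evI] at ih ⊢
      rw [← ih]

theorem evI_take_drop (t : A) (n : ℕ) (l : List ℤ) :
    evI t l = evI t (l.take n) + t ^ n * evI t (l.drop n) := by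
  induction n generalizing l with
  | zero => simp [evI]
  | succ n ih =>
    cases l with
    | nil => simp [evI]
    | cons a l =>
      simp only [List.take_succ_cons, List.drop_succ_cons, evI]
      rw [ih l]
      ring

theorem evI_take {t : A} {n : ℕ} (h : t ^ n = 0) (l : List ℤ) : evI t (l.take n) = evI t l := by
  rw [evI_take_drop t n l, h, zero_mul, add_zero]

theorem evI_powI {t : A} {n : ℕ} (h : t ^ n = 0) (f : ℕ) (b : List ℤ) (e : ℕ) (he : e < 2 ^ f) :
    evI t (powI n f b e) = evI t b ^ e := by
  induction f generalizing b e with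
  | zero =>
    have : e = 0 := by simpa using he
    subst this
    simp [powI, evI]
  | succ f ih =>
    unfold powI
    split_ifs with h0 h1
    · subst h0; simp [evI]
    · rw [evI_take h, evI_mulI, ih _ _ (by omega), evI_take h, evI_mulI, ← pow_two, ← pow_mul,
        ← pow_succ]
      congr 1
      omega
    · rw [ih _ _ (by omega), evI_take h, evI_mulI, ← pow_two, ← pow_mul]
      congr 1
      omega

theorem evI_replicate (t : A) (m : ℕ) (l : List ℤ) :
    evI t (List.replicate m 0 ++ l) = t ^ m * evI t l := by
  induction m with
  | zero => simp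
  | succ m ih =>
    rw [List.replicate_succ, List.cons_append, evI, ih]
    push_cast
    ring

/-! ### polynomials in `z` with coefficients in `ℤ[t]/(t^19)` -/

/-- value -/
def evO (t z : A) : List (List ℤ) → A
  | [] => 0
  | f :: F => evI t f + z * evO t z F

/-- sum -/
def addO : List (List ℤ) → List (List ℤ) → List (List ℤ)
  | [], b => b
  | a :: l, [] => a :: l
  | a :: l, b :: k => addI a b :: addO l k

/-- multiplication by `t^m`, truncated -/
def shiftO (m : ℕ) (F : List (List ℤ)) : List (List ℤ) :=
  F.map fun f => (List.replicate m 0 ++ f).take 19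

/-- the product of `P(t^m z)` and `F(z)` -/
def mulP (m : ℕ) : List ℤ → List (List ℤ) → List (List ℤ)
  | [], _ => []
  | c :: P, F => addO (F.map fun f => f.map fun x => c * x) ([] :: shiftO m (mulP m P F))

/-- remove empty lists at the end -/
def trimO : List (List ℤ) → List (List ℤ)
  | [] => []
  | a :: l => match trimO l with
    | [] => if a = [] then [] else [a]
    | b :: k => a :: b :: k

theorem evO_addO (t z : A) (a b : List (List ℤ)) :
    evO t z (addO a b) = evO t z a + evO t z b := by
  induction a generalizing b with
  | nil => simp [addO, evO]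
  | cons x l ih =>
    cases b with
    | nil => simp [addO, evO]
    | cons y k =>
      simp only [addO, evO, ih, evI_addI]
      ring

theorem evO_scale (t z : A) (c : ℤ) (F : List (List ℤ)) :
    evO t z (F.map fun f => f.map fun x => c * x) = c * evO t z F := by
  induction F with
  | nil => simp [evO]
  | cons f F ih =>
    simp only [List.map_cons, evO, ih, evI_map]
    ring

theorem evO_shiftO {t : A} (ht : t ^ 19 = 0) (z : A) (m : ℕ) (F : List (List ℤ)) :
    evO t z (shiftO m F) = t ^ m * evO t z F := by
  unfold shiftO
  induction F with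
  | nil => simp [evO]
  | cons f F ih =>
    rw [List.map_cons, evO, evO, ih, evI_take ht, evI_replicate]
    ring

theorem evO_mulP {t : A} (ht : t ^ 19 = 0) (z : A) (m : ℕ) (P : List ℤ) (F : List (List ℤ)) :
    evO t z (mulP m P F) = evI (t ^ m * z) P * evO t z F := by
  induction P with
  | nil => simp [mulP, evO, evI]
  | cons c P ih =>
    rw [mulP, evO_addO, evO_scale, evO, evO_shiftO ht, ih, evI, evI]
    ring

theorem evO_map_trimI (t z : A) (F : List (List ℤ)) : evO t z (F.map trimI) = evO t z F := by
  induction F with
  | nil => rfl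
  | cons f F ih => rw [List.map_cons, evO, evO, ih, evI_trimI]

theorem evO_trimO (t z : A) (a : List (List ℤ)) : evO t z (trimO a) = evO t z a := by
  induction a with
  | nil => rfl
  | cons x l ih =>
    unfold trimO
    split
    · rename_i h
      rw [h] at ih
      split_ifs with hx
      · subst hx
        simp only [evO, evI] at ih ⊢
        rw [← ih]; simp
      · simp only [evO] at ih ⊢
        rw [← ih]
    · rename_i b k h
      rw [h] at ih
      simp only [evO] at ih ⊢
      rw [← ih]

end Lists

/-- the predicted dimensions for `dim V = 3` -/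
def AL : List ℕ := [0, 3, 6, 18, 45, 135, 378, 1134, 3324, 9981, 29733, 89280, 267273, 801957,
  2403018, 7203942, 21582282, 64661358, 193681917]

/-- the predicted dimensions as a function -/
def aN (m : ℕ) : ℕ := AL.getD m 0

/-- `∏_{m ≤ n} (1 - t^m z)^(aN m)` -/
def FO : ℕ → List (List ℤ)
  | 0 => [[1]]
  | m + 1 => trimO ((mulP (m + 1) (powI (18 / (m + 1) + 1) 30 [1, -1] (aN (m + 1))) (FO m)).map
      trimI)

theorem aN_lt : ∀ m < 19, aN m < 2 ^ 30 := by decide

theorem evO_FO {A : Type} [CommRing A] {t : A} (ht : t ^ 19 = 0) (z : A) {n : ℕ} (hn : n ≤ 18) :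
    evO t z (FO n) = ∏ m ∈ Finset.Icc 1 n, (1 - t ^ m * z) ^ aN m := by
  induction n with
  | zero => simp [FO, evO, evI]
  | succ n ih =>
    have h1 : (t ^ (n + 1) * z) ^ (18 / (n + 1) + 1) = 0 := by
      rw [mul_pow, ← pow_mul]
      have : 19 ≤ (n + 1) * (18 / (n + 1) + 1) := by
        exact Nat.lt_mul_div_succ 18 (Nat.succ_pos n)
      obtain ⟨k, hk⟩ := Nat.exists_eq_add_of_le this
      rw [hk, pow_add, ht, zero_mul, zero_mul]
    rw [FO, evO_trimO, evO_map_trimI, evO_mulP ht, evI_powI h1 _ _ _ (aN_lt _ (by omega)),
      ih (by omega), Finset.prod_Icc_succ_top (by omega), mul_comm]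
    congr 2
    simp only [evI]
    push_cast
    ring

end Pool.Agent.U691.KM
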